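import Pool.Agent.U974.LG.Paley

set_option autoImplicit false

/-! # Embedding patterns -/

namespace Pool.Agent.U974.LG

open Finset

/-- every pattern of signs occurs in every family of `m` large sets of residues -/
theorem embed (m : ℕ) : ∀ δ : ℝ, 0 < δ → ∃ Q₀ : ℕ, ∀ (Q : ℕ) [Fact Q.Prime], Q₀ ≤ Q →
    ∀ S : Fin m → Finset (ZMod Q), (∀ i, δ * Q ≤ (S i).card) →
    ∀ ε : Fin m → Fin m → ℤ, (∀ i j, ε i j = 1 ∨ ε i j = -1) →
    ∃ c : Fin m → ZMod Q, (∀ i, c i ∈ S i) ∧ ∀ i j, i < j → chi Q (c j - c i) = ε i j := by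
  induction m with
  | zero =>
      intro δ _
      exact ⟨0, fun Q _ _ S _ ε _ => ⟨fun i => i.elim0, fun i => i.elim0, fun i => i.elim0⟩⟩
  | succ m ih =>
      intro δ hδ
      obtain ⟨Q₁, hQ₁⟩ := ih (δ / 4) (by positivity)
      obtain ⟨Q₂, hQ₂⟩ := exists_nat_gt (16 * m / δ ^ 2 + 4 / δ + 3)
      refine ⟨max Q₁ Q₂, fun Q _ hQ S hS ε hε => ?_⟩
      have hQQ₁ : Q₁ ≤ Q := le_trans (le_max_left _ _) hQ
      have hQQ₂ : (16 * m / δ ^ 2 + 4 / δ + 3 : ℝ) < Q :=
        lt_of_lt_of_le hQ₂ (by exact_mod_cast le_trans (le_max_right _ _) hQ)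
      have hp1 : (0 : ℝ) ≤ 16 * m / δ ^ 2 := by positivity
      have hp2 : (0 : ℝ) ≤ 4 / δ := by positivity
      have hQ0 : (0 : ℝ) < Q := by linarith
      have hQ2 : Q ≠ 2 := by
        rintro rfl
        norm_num at hQQ₂
        linarith
      have h4 : ∀ i, 4 ≤ (S i).card := by
        intro i
        have h1 := hS i
        have h2 : 4 / δ < Q := by linarith
        rw [div_lt_iff₀ hδ] at h2
        have h3 : (4 : ℝ) ≤ ((S i).card : ℝ) := by linarith
        exact_mod_cast h3
      -- bad sets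
      let Bad : Fin m → Finset (ZMod Q) := fun j =>
        (S 0).filter (fun c => 4 * ((S j.succ).filter (fun x => chi Q (x - c) = ε 0 j.succ)).card < (S j.succ).card)
      have hBad : ∀ j, ((Bad j).card : ℝ) ≤ 16 / δ := by
        intro j
        have h1 := few_bad hQ2 (S j.succ) (h4 _) (ε 0 j.succ) (hε _ _) (Bad j) (by
          intro c hc
          exact (Finset.mem_filter.1 hc).2)
        have h2 : ((Bad j).card : ℝ) * (S j.succ).card ≤ 16 * Q := by exact_mod_cast h1
        have h3 := hS j.succ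
        rw [le_div_iff₀ hδ]
        have h5 : ((Bad j).card : ℝ) * (δ * Q) ≤ 16 * Q :=
          (mul_le_mul_of_nonneg_left h3 (Nat.cast_nonneg _)).trans h2
        have h6 : ((Bad j).card : ℝ) * δ * Q ≤ 16 * Q := by linarith
        exact le_of_mul_le_mul_right h6 hQ0
      have hU : (((Finset.univ : Finset (Fin m)).biUnion Bad).card : ℝ) < (S 0).card := by
        calc (((Finset.univ : Finset (Fin m)).biUnion Bad).card : ℝ)
            ≤ ((∑ j : Fin m, (Bad j).card : ℕ) : ℝ) := by exact_mod_cast Finset.card_biUnion_le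
          _ = ∑ j : Fin m, ((Bad j).card : ℝ) := by push_cast; rfl
          _ ≤ ∑ j : Fin m, (16 / δ) := Finset.sum_le_sum (fun j _ => hBad j)
          _ = m * (16 / δ) := by simp
          _ < δ * Q := by
              have h1 : 16 * m / δ ^ 2 < Q := by linarith
              rw [div_lt_iff₀ (by positivity)] at h1
              rw [mul_div_assoc', div_lt_iff₀ hδ]
              nlinarith
          _ ≤ (S 0).card := hS 0
      have hU' : ((Finset.univ : Finset (Fin m)).biUnion Bad).card < (S 0).card := by exact_mod_cast hU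
      obtain ⟨c₀, hc₀, hc₀'⟩ := Finset.exists_mem_notMem_of_card_lt_card hU'
      have hgood : ∀ j : Fin m, (S j.succ).card ≤
          4 * ((S j.succ).filter (fun x => chi Q (x - c₀) = ε 0 j.succ)).card := by
        intro j
        by_contra hcon
        push Not at hcon
        exact hc₀' (Finset.mem_biUnion.2 ⟨j, Finset.mem_univ _, Finset.mem_filter.2 ⟨hc₀, hcon⟩⟩)
      obtain ⟨c, hc, hcε⟩ := hQ₁ Q hQQ₁ (fun j => (S j.succ).filter (fun x => chi Q (x - c₀) = ε 0 j.succ))
        (by
          intro j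
          have h1 : ((S j.succ).card : ℝ) ≤
            4 * (((S j.succ).filter (fun x => chi Q (x - c₀) = ε 0 j.succ)).card : ℝ) := by
              exact_mod_cast hgood j
          have h2 := hS j.succ
          have h3 : δ / 4 * Q = (δ * Q) / 4 := by ring
          rw [h3, div_le_iff₀ (by norm_num)]
          linarith)
        (fun i j => ε i.succ j.succ) (fun i j => hε _ _)
      refine ⟨Fin.cons c₀ c, ?_, ?_⟩
      · intro i
        refine Fin.cases ?_ (fun j => ?_) i
        · simpa using hc₀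
        · simpa using (Finset.mem_filter.1 (hc j)).1
      · intro i j hij
        refine Fin.cases (fun hij => ?_) (fun i hij => ?_) i hij
        · obtain ⟨j', rfl⟩ : ∃ j' : Fin m, j = j'.succ := ⟨j.pred (Fin.pos_iff_ne_zero.1 hij), by simp⟩
          simpa using (Finset.mem_filter.1 (hc j')).2
        · obtain ⟨j', rfl⟩ : ∃ j' : Fin m, j = j'.succ :=
            ⟨j.pred (Fin.pos_iff_ne_zero.1 (lt_of_le_of_lt (Fin.zero_le _) hij)), by simp⟩
          simp only [Fin.cons_succ]
          exact hcε i j' (Fin.succ_lt_succ_iff.1 hij)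

/-- every large set `E` of the colours `0, ..., Q - 2` (which stand for the residues `1, ..., Q - 1`) contains, in
order, every pattern of signs -/
theorem embed_order (m : ℕ) (η : ℝ) (hη : 0 < η) : ∃ Q₀ : ℕ, ∀ (Q : ℕ) [Fact Q.Prime], Q₀ ≤ Q →
    ∀ E : Finset (Fin (Q - 1)), η * ((Q - 1 : ℕ) : ℝ) ≤ E.card →
    ∀ ε : Fin m → Fin m → ℤ, (∀ i j, ε i j = 1 ∨ ε i j = -1) →
    ∃ e : Fin m → Fin (Q - 1), StrictMono e ∧ (∀ i, e i ∈ E) ∧
      ∀ i j, i < j → chi Q ((((e j : ℕ) + 1 : ℕ) : ZMod Q) - (((e i : ℕ) + 1 : ℕ) : ZMod Q)) = ε i j := by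
  obtain ⟨Q₁, hQ₁⟩ := embed m (η / (4 * (m + 1))) (by positivity)
  obtain ⟨Q₂, hQ₂⟩ := exists_nat_gt (4 * (m + 1) / η + 2)
  refine ⟨max Q₁ Q₂, fun Q _ hQ E hE ε hε => ?_⟩
  have hQQ₁ : Q₁ ≤ Q := le_trans (le_max_left _ _) hQ
  have hQQ₂ : (4 * (m + 1) / η + 2 : ℝ) < Q :=
    lt_of_lt_of_le hQ₂ (by exact_mod_cast le_trans (le_max_right _ _) hQ)
  have hp : (0 : ℝ) < 4 * (m + 1) / η := by positivity
  have hQ2 : (2 : ℝ) < Q := by linarith
  have hQ2' : 2 < Q := by exact_mod_cast hQ2
  set k := E.card with hk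
  set q := k / (m + 1) with hq
  have hcast : ((Q - 1 : ℕ) : ℝ) = Q - 1 := by
    rw [Nat.cast_sub (by omega)]
    simp
  rw [hcast] at hE
  have hkk : η * Q / 2 ≤ k := by nlinarith
  have hmk : (m + 1 : ℝ) ≤ k := by
    have h1 : 4 * (m + 1) / η < Q := by linarith
    rw [div_lt_iff₀ hη] at h1
    nlinarith
  have hmk' : m + 1 ≤ k := by exact_mod_cast hmk
  have hq1 : 1 ≤ q := (Nat.one_le_div_iff (by omega)).2 hmk'
  have hqk : k < (m + 1) * (q + 1) := by
    have := Nat.lt_mul_div_succ k (show 0 < m + 1 by omega)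
    rw [hq]
    exact this
  have hqk' : (k : ℝ) ≤ 2 * (m + 1) * q := by
    have h1 : (k : ℝ) < (m + 1) * (q + 1) := by exact_mod_cast hqk
    have h2 : (1 : ℝ) ≤ q := by exact_mod_cast hq1
    nlinarith
  have hqm : q * m ≤ k := by
    have h1 : q * (m + 1) ≤ k := Nat.div_mul_le_self _ _
    nlinarith
  let φ := E.orderEmbOfFin hk.symm
  let ρ : Fin (Q - 1) → ZMod Q := fun e => (((e : ℕ) + 1 : ℕ) : ZMod Q)
  have hρ : Function.Injective ρ := by
    intro a b hab
    have h1 := (ZMod.natCast_eq_natCast_iff' _ _ _).1 hab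
    have ha := a.2
    have hb := b.2
    rw [Nat.mod_eq_of_lt (by omega), Nat.mod_eq_of_lt (by omega)] at h1
    exact Fin.ext (by omega)
  let I : Fin m → Finset (Fin k) := fun i => Finset.univ.filter (fun u => i * q ≤ (u : ℕ) ∧ (u : ℕ) < (i + 1) * q)
  have hI : ∀ i, q ≤ (I i).card := by
    intro i
    have h1 : ∀ u ∈ Finset.range q, i * q + u < k := by
      intro u hu
      have h2 := Finset.mem_range.1 hu
      have h3 : (i : ℕ) * q + q ≤ q * m := by
        have h5 : (i : ℕ) + 1 ≤ m := i.2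
        calc (i : ℕ) * q + q = ((i : ℕ) + 1) * q := by ring
          _ ≤ m * q := Nat.mul_le_mul_right _ h5
          _ = q * m := mul_comm _ _
      omega
    have h2 : (Finset.range q).card ≤ (I i).card := by
      apply Finset.card_le_card_of_injOn (fun u => if h : i * q + u < k then (⟨i * q + u, h⟩ : Fin k) else
        ⟨0, by omega⟩)
      · intro u hu
        have h3 := h1 u hu
        have h4 := Finset.mem_range.1 hu
        simp only [h3, dif_pos]
        refine Finset.mem_coe.2 (Finset.mem_filter.2 ⟨Finset.mem_univ _, ?_, ?_⟩)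
        · simp
        · simp only
          nlinarith
      · intro u hu v hv huv
        have h3 := h1 u hu
        have h4 := h1 v hv
        simp only [h3, h4, dif_pos, Fin.mk.injEq] at huv
        omega
    rwa [Finset.card_range] at h2
  let S : Fin m → Finset (ZMod Q) := fun i => (I i).image (fun u => ρ (φ u))
  have hS : ∀ i, (η / (4 * (m + 1))) * Q ≤ (S i).card := by
    intro i
    have h1 : (S i).card = (I i).card :=
      Finset.card_image_of_injective _ (hρ.comp φ.injective)
    rw [h1]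
    have h2 : (q : ℝ) ≤ (I i).card := by exact_mod_cast hI i
    refine le_trans ?_ h2
    rw [div_mul_eq_mul_div, div_le_iff₀ (by positivity)]
    nlinarith
  obtain ⟨c, hc, hcε⟩ := hQ₁ Q hQQ₁ S hS ε hε
  have h1 : ∀ i, ∃ u : Fin k, u ∈ I i ∧ ρ (φ u) = c i := by
    intro i
    obtain ⟨u, hu, hu'⟩ := Finset.mem_image.1 (hc i)
    exact ⟨u, hu, hu'⟩
  choose u hu hu' using h1
  refine ⟨fun i => φ (u i), ?_, ?_, ?_⟩
  · intro i j hij
    apply φ.strictMono
    have h2 := (Finset.mem_filter.1 (hu i)).2.2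
    have h3 := (Finset.mem_filter.1 (hu j)).2.1
    have h4 : ((i : ℕ) + 1) * q ≤ j * q := Nat.mul_le_mul_right _ (by exact_mod_cast hij)
    exact Fin.lt_def.2 (lt_of_lt_of_le h2 (h4.trans h3))
  · intro i
    exact Finset.orderEmbOfFin_mem E hk.symm (u i)
  · intro i j hij
    have := hcε i j hij
    rw [← hu' i, ← hu' j] at this
    exact this

end Pool.Agent.U974.LG
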