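import Mathlib

set_option autoImplicit false

/-! # Tuples whose differences have controlled prime factors -/

namespace Pool.Agent.U974.LG

open Finset

/-- the properties of the first `k` terms of the tuple -/
structure Good (Q M : ℕ) (r : ℕ → ℕ) (k : ℕ) (t : ℕ → ℕ) : Prop where
  step : ∀ i, i + 1 < k → ∃ v, v ≡ 1 [MOD M ^ 2] ∧ t (i + 1) = t i + M ^ (2 * (i + 1)) * v
  zero : t 0 ≡ 0 [MOD M]
  res : ∀ i, i < k → t i ≡ r i [MOD Q]
  one : ∀ ℓ : ℕ, ℓ.Prime → ¬ ℓ ∣ M → ℓ ≠ Q → ∀ i j, i < j → j < k → ∀ i' j', i' < j' → j' < k →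
    t i ≡ t j [MOD ℓ] → t i' ≡ t j' [MOD ℓ] → t i ≡ t i' [MOD ℓ]

theorem good_extend {Q M : ℕ} (hQ : Q.Prime) (hM : 1 < M) (hQM : Q.Coprime M) (r : ℕ → ℕ) (k : ℕ) (t : ℕ → ℕ)
    (hk : 1 ≤ k) (h : Good Q M r k t) : ∃ t', Good Q M r (k + 1) t' := by
  classical
  obtain ⟨k, rfl⟩ : ∃ k', k = k' + 1 := ⟨k - 1, by omega⟩
  -- the primes of the differences
  let L : Finset ℕ := ((Finset.range (k + 1)).biUnion (fun i => (Finset.range (k + 1)).biUnion (fun j =>
    (t j - t i).primeFactors))).filter (fun ℓ => ¬ ℓ ∣ M ∧ ℓ ≠ Q)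
  have hL : ∀ ℓ : ℕ, ℓ.Prime → ¬ ℓ ∣ M → ℓ ≠ Q → ∀ i j, i < j → j < k + 1 → t i < t j → t i ≡ t j [MOD ℓ] →
      ℓ ∈ L := by
    intro ℓ hℓ hℓM hℓQ i j hij hj hlt hmod
    refine Finset.mem_filter.2 ⟨?_, hℓM, hℓQ⟩
    refine Finset.mem_biUnion.2 ⟨i, Finset.mem_range.2 (by omega), Finset.mem_biUnion.2 ⟨j, Finset.mem_range.2 hj, ?_⟩⟩
    refine Nat.mem_primeFactors.2 ⟨hℓ, (Nat.modEq_iff_dvd' hlt.le).1 hmod, by omega⟩
  have hLp : ∀ ℓ ∈ L, ℓ.Prime ∧ ¬ ℓ ∣ M ∧ ℓ ≠ Q := by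
    intro ℓ hℓ
    obtain ⟨h1, h2, h3⟩ := Finset.mem_filter.1 hℓ
    obtain ⟨i, _, h1⟩ := Finset.mem_biUnion.1 h1
    obtain ⟨j, _, h1⟩ := Finset.mem_biUnion.1 h1
    exact ⟨Nat.prime_of_mem_primeFactors h1, h2, h3⟩
  -- monotone
  have hmono : ∀ i, i + 1 < k + 1 → t i < t (i + 1) := by
    intro i hi
    obtain ⟨v, hv, hv'⟩ := h.step i hi
    have h1 : v ≠ 0 := by
      rintro rfl
      have h2 := (Nat.modEq_zero_iff_dvd.1 hv.symm)
      have h3 := Nat.eq_one_of_dvd_one h2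
      have h4 : 1 < M ^ 2 := Nat.one_lt_pow (by norm_num) hM
      omega
    have h2 : 0 < M ^ (2 * (i + 1)) * v := Nat.mul_pos (by positivity) (Nat.pos_of_ne_zero h1)
    omega
  have hmono' : ∀ i j, i < j → j < k + 1 → t i < t j := by
    intro i j hij
    induction j, hij using Nat.le_induction with
    | base => intro hj; exact hmono i hj
    | succ j hj ih =>
        intro hj'
        exact (ih (by omega)).trans (hmono j hj')
  -- target classes
  have hτ : ∀ ℓ : ℕ, ∃ τ : ℕ, ∀ i j, i < j → j < k + 1 → t i ≡ t j [MOD ℓ] → ℓ.Prime → ¬ ℓ ∣ M → ℓ ≠ Q →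
      τ ≡ t i [MOD ℓ] := by
    intro ℓ
    by_cases hex : ∃ i j, i < j ∧ j < k + 1 ∧ t i ≡ t j [MOD ℓ]
    · obtain ⟨i, j, hij, hj, hm⟩ := hex
      refine ⟨t i, fun i' j' hij' hj' hm' h1 h2 h3 => ?_⟩
      exact h.one ℓ h1 h2 h3 i j hij hj i' j' hij' hj' hm hm'
    · refine ⟨0, fun i j hij hj hm => ?_⟩
      exact absurd ⟨i, j, hij, hj, hm⟩ hex
  choose τ hτ using hτ
  -- Chinese remainder theorem
  let a : ℕ → ℕ := fun ℓ => if ℓ = Q then r (k + 1) else if ℓ = 1 then t k + M ^ (2 * (k + 1)) else τ ℓ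
  let s : ℕ → ℕ := fun ℓ => if ℓ = 1 then M ^ (2 * (k + 1) + 2) else ℓ
  have hQ1 : Q ≠ 1 := hQ.one_lt.ne'
  let T : Finset ℕ := insert 1 (insert Q L)
  have hs0 : ∀ i ∈ T, s i ≠ 0 := by
    intro i hi
    simp only [s]
    split_ifs with h1
    · positivity
    · rcases Finset.mem_insert.1 hi with h2 | h2
      · exact absurd h2 h1
      · rcases Finset.mem_insert.1 h2 with h2 | h2
        · rw [h2]; exact hQ.ne_zero
        · exact (hLp i h2).1.ne_zero
  have hprime : ∀ i ∈ T, i ≠ 1 → i.Prime ∧ ¬ i ∣ M := by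
    intro i hi hi1
    rcases Finset.mem_insert.1 hi with h2 | h2
    · exact absurd h2 hi1
    · rcases Finset.mem_insert.1 h2 with h2 | h2
      · rw [h2]; exact ⟨hQ, (Nat.Prime.coprime_iff_not_dvd hQ).1 hQM⟩
      · exact ⟨(hLp i h2).1, (hLp i h2).2.1⟩
  have hcop : Set.Pairwise (T : Set ℕ) (Function.onFun Nat.Coprime s) := by
    intro i hi j hj hij
    simp only [Function.onFun, s]
    split_ifs with h1 h2 h2
    · exact absurd (h1.trans h2.symm) hij
    · obtain ⟨h3, h4⟩ := hprime j hj h2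
      exact (Nat.Coprime.pow_right _ ((Nat.Prime.coprime_iff_not_dvd h3).2 h4)).symm
    · obtain ⟨h3, h4⟩ := hprime i hi h1
      exact (Nat.Coprime.pow_right _ ((Nat.Prime.coprime_iff_not_dvd h3).2 h4))
    · exact (Nat.coprime_primes (hprime i hi h1).1 (hprime j hj h2).1).2 hij
  obtain ⟨x, hx⟩ := Nat.chineseRemainderOfFinset a s T hs0 hcop
  -- make it large
  let P : ℕ := ∏ i ∈ T, s i
  have hP0 : 0 < P := Finset.prod_pos (fun i hi => Nat.pos_of_ne_zero (hs0 i hi))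
  let y : ℕ := x + P * (t k + M ^ (2 * (k + 1)))
  have hy : ∀ i ∈ T, y ≡ a i [MOD s i] := by
    intro i hi
    have h1 : y ≡ x [MOD s i] := by
      have h2 : s i ∣ P * (t k + M ^ (2 * (k + 1))) := Dvd.dvd.mul_right (Finset.dvd_prod_of_mem s hi) _
      have := (Nat.modEq_zero_iff_dvd.2 h2).add_left x
      rw [add_zero] at this
      exact this
    exact h1.trans (hx i hi)
  have hyk : t k + M ^ (2 * (k + 1)) ≤ y := by
    have : t k + M ^ (2 * (k + 1)) ≤ P * (t k + M ^ (2 * (k + 1))) := Nat.le_mul_of_pos_left _ hP0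
    exact this.trans (Nat.le_add_left _ _)
  have hy1 : y ≡ t k + M ^ (2 * (k + 1)) [MOD M ^ (2 * (k + 1) + 2)] := by
    have := hy 1 (Finset.mem_insert_self _ _)
    simpa [a, s, hQ1.symm] using this
  have hyQ : y ≡ r (k + 1) [MOD Q] := by
    have := hy Q (Finset.mem_insert_of_mem (Finset.mem_insert_self _ _))
    simpa [a, s, hQ1] using this
  have hyL : ∀ ℓ ∈ L, y ≡ τ ℓ [MOD ℓ] := by
    intro ℓ hℓ
    have h1 := hy ℓ (Finset.mem_insert_of_mem (Finset.mem_insert_of_mem hℓ))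
    have h2 := (hLp ℓ hℓ).2.2
    have h3 := (hLp ℓ hℓ).1.one_lt.ne'
    simpa [a, s, h2, h3] using h1
  -- the new tuple
  refine ⟨fun i => if i < k + 1 then t i else y, ?_, ?_, ?_, ?_⟩
  · intro i hi
    by_cases h1 : i + 1 < k + 1
    · obtain ⟨v, hv, hv'⟩ := h.step i h1
      refine ⟨v, hv, ?_⟩
      simp only [h1, show i < k + 1 by omega, if_true]
      exact hv'
    · have h2 : i = k := by omega
      subst h2
      have h3 := (Nat.modEq_iff_dvd' hyk).1 hy1.symm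
      obtain ⟨z, hz⟩ := h3
      refine ⟨1 + M ^ 2 * z, ?_, ?_⟩
      · have : 1 + M ^ 2 * z ≡ 1 + 0 [MOD M ^ 2] := (Nat.modEq_zero_iff_dvd.2 (Dvd.intro _ rfl)).add_left 1
        simpa using this
      · simp only [lt_irrefl, if_false, show i < i + 1 by omega, if_true]
        have h4 : y = t i + M ^ (2 * (i + 1)) + M ^ (2 * (i + 1) + 2) * z := by omega
        rw [h4, pow_add]
        ring
  · simp only [show 0 < k + 1 by omega, if_true]
    exact h.zero
  · intro i hi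
    by_cases h1 : i < k + 1
    · simp only [h1, if_true]
      exact h.res i h1
    · have h2 : i = k + 1 := by omega
      subst h2
      simp only [lt_irrefl, if_false]
      exact hyQ
  · intro ℓ hℓ hℓM hℓQ i j hij hj i' j' hij' hj' hm hm'
    by_cases h1 : j < k + 1
    · have hi : i < k + 1 := by omega
      by_cases h2 : j' < k + 1
      · have hi' : i' < k + 1 := by omega
        simp only [h1, h2, hi, hi', if_true] at hm hm' ⊢
        exact h.one ℓ hℓ hℓM hℓQ i j hij h1 i' j' hij' h2 hm hm'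
      · have hi' : i' < k + 1 := by omega
        simp only [h1, h2, hi, hi', if_true, if_false] at hm hm' ⊢
        have h3 : ℓ ∈ L := hL ℓ hℓ hℓM hℓQ i j hij h1 (hmono' i j hij h1) hm
        have h4 := hyL ℓ h3
        have h5 := hτ ℓ i j hij h1 hm hℓ hℓM hℓQ
        exact (hm'.trans (h4.trans h5)).symm
    · have hi : i < k + 1 := by omega
      by_cases h2 : j' < k + 1
      · have hi' : i' < k + 1 := by omega
        simp only [h1, h2, hi, hi', if_true, if_false] at hm hm' ⊢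
        have h3 : ℓ ∈ L := hL ℓ hℓ hℓM hℓQ i' j' hij' h2 (hmono' i' j' hij' h2) hm'
        have h4 := hyL ℓ h3
        have h5 := hτ ℓ i' j' hij' h2 hm' hℓ hℓM hℓQ
        exact (hm.trans (h4.trans h5))
      · have hi' : i' < k + 1 := by omega
        simp only [h1, h2, hi, hi', if_true, if_false] at hm hm' ⊢
        exact hm.trans hm'.symm

theorem exists_good {Q M : ℕ} (hQ : Q.Prime) (hM : 1 < M) (hQM : Q.Coprime M) (r : ℕ → ℕ) (k : ℕ) (hk : 1 ≤ k) :
    ∃ t, Good Q M r k t := by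
  induction k, hk using Nat.le_induction with
  | base =>
      obtain ⟨x, hx1, hx2⟩ := Nat.chineseRemainder hQM (r 0) 0
      refine ⟨fun _ => x, ?_, hx2, ?_, ?_⟩
      · intro i hi; omega
      · intro i hi
        obtain rfl : i = 0 := by omega
        exact hx1
      · intro ℓ _ _ _ i j hij hj
        omega
  | succ k hk ih =>
      obtain ⟨t, ht⟩ := ih
      exact good_extend hQ hM hQM r k t hk ht

/-- the shape of all differences -/
theorem Good.diff {Q M : ℕ} {r : ℕ → ℕ} {k : ℕ} {t : ℕ → ℕ} (h : Good Q M r k t) :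
    ∀ i j, i < j → j < k → ∃ w, w ≡ 1 [MOD M ^ 2] ∧ t j = t i + M ^ (2 * (i + 1)) * w := by
  intro i j hij
  induction j, hij using Nat.le_induction with
  | base => intro hj; exact h.step i hj
  | succ j hj ih =>
      intro hj'
      obtain ⟨w, hw, hw'⟩ := ih (by omega)
      obtain ⟨v, hv, hv'⟩ := h.step j hj'
      obtain ⟨e, he⟩ : ∃ e, j = i + 1 + e := ⟨j - (i + 1), by omega⟩
      refine ⟨w + M ^ (2 * (e + 1)) * v, ?_, ?_⟩
      · have h1 : M ^ 2 ∣ M ^ (2 * (e + 1)) * v :=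
          Dvd.dvd.mul_right (pow_dvd_pow M (by omega)) _
        have := hw.add (Nat.modEq_zero_iff_dvd.2 h1)
        simpa using this
      · rw [hv', hw', he]
        have h2 : M ^ (2 * (i + 1 + e + 1)) = M ^ (2 * (i + 1)) * M ^ (2 * (e + 1)) := by
          rw [← pow_add]
          congr 1
          ring
        rw [h2]
        ring

end Pool.Agent.U974.LG
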