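import Pool.Agent.U974.LG.Sym
import Pool.Agent.U974.LG.Tup

set_option autoImplicit false

/-! # The tuple: between its primes all Legendre symbols are Legendre symbols modulo `Q` of differences of colours -/

namespace Pool.Agent.U974.LG

open Finset

theorem dvd_of_squarefree {d : ℕ} {z : ℤ} (hd : Squarefree d) (h : ∀ ℓ : ℕ, ℓ.Prime → ℓ ∣ d → (ℓ : ℤ) ∣ z) :
    (d : ℤ) ∣ z := by
  rw [← Nat.prod_primeFactors_of_squarefree hd, Int.natCast_dvd]
  apply Finset.prod_primes_dvd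
  · intro ℓ hℓ
    exact (Nat.prime_of_mem_primeFactors hℓ).prime
  · intro ℓ hℓ
    exact Int.natCast_dvd.1 (h ℓ (Nat.prime_of_mem_primeFactors hℓ) (Nat.dvd_of_mem_primeFactors hℓ))

theorem arith {Q M K d b : ℕ} [Fact Q.Prime] (hQ2 : Q ≠ 2) (hM2 : 2 ∣ M) (hM : 1 < M) (hQM : Q.Coprime M)
    (hMK : ∀ p : ℕ, p.Prime → p ≤ 2 * K + 2 → p ≠ Q → p ∣ M) (hK : 1 ≤ K)
    (hd : Squarefree d) (hdM : d ∣ M) (hb : b.Coprime d) (r : ℕ → ℕ) (hr : ∀ i, ¬ Q ∣ r i) :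
    ∃ (t : ℕ → ℕ) (D : ℕ), Squarefree D ∧ (∀ i j, i < j → j < K → t i < t j) ∧
      (∀ j, j < K → t j ≡ 0 [MOD M]) ∧
      (∀ p : ℕ, p.Prime → ∃ v : ℕ, ∀ j, j < K → ¬ p ∣ v + t j) ∧
      ∀ T : ℕ, T ≠ 0 → ∃ h : ℕ,
      (∀ j, j < K → (h + T ^ 2 * t j).Coprime D) ∧
      (∀ n : ℕ, n ≡ h [MOD D] → ∀ j, j < K → n + T ^ 2 * t j ≡ b [MOD d]) ∧
      (∀ n : ℕ, n ≡ h [MOD D] → M < n → T < n → ∀ i j, i < j → j < K → (n + T ^ 2 * t i).Prime →
        ¬ r i ≡ r j [MOD Q] →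
        jacobiSym ((n + T ^ 2 * t j : ℕ) : ℤ) (n + T ^ 2 * t i) = chi Q ((r j : ZMod Q) - r i)) := by
  classical
  have hQ : Q.Prime := Fact.out
  have hQodd : Odd Q := hQ.odd_of_ne_two hQ2
  obtain ⟨t, ht⟩ := exists_good hQ hM hQM r K hK
  have hdiff := ht.diff
  have hw0 : ∀ w, w ≡ 1 [MOD M ^ 2] → 0 < w := by
    intro w hw
    rcases Nat.eq_zero_or_pos w with h1 | h1
    · exfalso
      rw [h1] at hw
      have h2 := (Nat.modEq_zero_iff_dvd.1 hw.symm)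
      have h3 := Nat.eq_one_of_dvd_one h2
      have h4 : 1 < M ^ 2 := Nat.one_lt_pow (by norm_num) hM
      omega
    · exact h1
  have hmono : ∀ i j, i < j → j < K → t i < t j := by
    intro i j hij hj
    obtain ⟨w, hw, hw'⟩ := hdiff i j hij hj
    have h2 : 0 < M ^ (2 * (i + 1)) * w := Nat.mul_pos (by positivity) (hw0 w hw)
    omega
  have htM : ∀ j, j < K → t j ≡ 0 [MOD M] := by
    intro j hj
    rcases Nat.eq_zero_or_pos j with h1 | h1
    · rw [h1]; exact ht.zero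
    · obtain ⟨w, hw, hw'⟩ := hdiff 0 j h1 hj
      rw [hw']
      have h2 : M ∣ M ^ (2 * (0 + 1)) * w := Dvd.dvd.mul_right (dvd_pow_self M (by norm_num)) _
      have := ht.zero.add (Nat.modEq_zero_iff_dvd.2 h2)
      simpa using this
  let S : Finset ℕ := M.primeFactors ∪ {Q} ∪
    ((Finset.range K).biUnion (fun i => (Finset.range K).biUnion (fun j => (t j - t i).primeFactors)))
  have hSp : ∀ ℓ ∈ S, ℓ.Prime := by
    intro ℓ hℓ
    rcases Finset.mem_union.1 hℓ with h1 | h1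
    · rcases Finset.mem_union.1 h1 with h1 | h1
      · exact Nat.prime_of_mem_primeFactors h1
      · rw [Finset.mem_singleton.1 h1]; exact hQ
    · obtain ⟨i, _, h1⟩ := Finset.mem_biUnion.1 h1
      obtain ⟨j, _, h1⟩ := Finset.mem_biUnion.1 h1
      exact Nat.prime_of_mem_primeFactors h1
  have hSQ : Q ∈ S := Finset.mem_union_left _ (Finset.mem_union_right _ (Finset.mem_singleton_self _))
  have hSM : ∀ ℓ : ℕ, ℓ.Prime → ℓ ∣ M → ℓ ∈ S := fun ℓ h1 h2 =>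
    Finset.mem_union_left _ (Finset.mem_union_left _ (Nat.mem_primeFactors.2 ⟨h1, h2, by omega⟩))
  have hSt : ∀ ℓ : ℕ, ℓ.Prime → ∀ i j, i < j → j < K → ℓ ∣ t j - t i → ℓ ∈ S := by
    intro ℓ hℓ i j hij hj hdv
    have h1 := hmono i j hij hj
    exact Finset.mem_union_right _ (Finset.mem_biUnion.2 ⟨i, Finset.mem_range.2 (by omega),
      Finset.mem_biUnion.2 ⟨j, Finset.mem_range.2 hj, Nat.mem_primeFactors.2 ⟨hℓ, hdv, by omega⟩⟩⟩)
  -- the classes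
  have hcl : ∀ ℓ : ℕ, ∃ x : ℕ, ℓ.Prime → (∀ j, j < K → ¬ ℓ ∣ x + t j) ∧ (ℓ ∣ d → x ≡ b [MOD ℓ]) ∧
      (¬ ℓ ∣ M → ℓ ≠ Q → ∀ i j, i < j → j < K → t i ≡ t j [MOD ℓ] →
        jacobiSym ((x + t i : ℕ) : ℤ) ℓ = jacobiSym Q ℓ) := by
    intro ℓ
    by_cases hℓ : ℓ.Prime
    · by_cases hℓM : ℓ ∣ M
      · -- small primes
        have h0 : ∀ j, j < K → ℓ ∣ t j := fun j hj =>
          Nat.modEq_zero_iff_dvd.1 ((htM j hj).of_dvd hℓM)
        by_cases hℓd : ℓ ∣ d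
        · refine ⟨b, fun _ => ⟨fun j hj hdv => ?_, fun _ => rfl, fun h => absurd hℓM h⟩⟩
          have h1 : ℓ ∣ b := (Nat.dvd_add_left (h0 j hj)).1 hdv
          have h2 := Nat.dvd_gcd h1 hℓd
          rw [hb] at h2
          exact hℓ.one_lt.ne' (Nat.eq_one_of_dvd_one h2)
        · refine ⟨1, fun _ => ⟨fun j hj hdv => ?_, fun h => absurd h hℓd, fun h => absurd hℓM h⟩⟩
          have h1 : ℓ ∣ 1 := (Nat.dvd_add_left (h0 j hj)).1 hdv
          exact hℓ.one_lt.ne' (Nat.eq_one_of_dvd_one h1)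
      · by_cases hℓQ : ℓ = Q
        · refine ⟨0, fun _ => ⟨fun j hj hdv => ?_, fun h => absurd (h.trans hdM) hℓM, fun _ h => absurd hℓQ h⟩⟩
          rw [zero_add, hℓQ] at hdv
          apply hr j
          exact Nat.modEq_zero_iff_dvd.1 ((ht.res j hj).symm.trans (Nat.modEq_zero_iff_dvd.2 hdv))
        · have hℓK : 2 * K + 2 < ℓ := by
            by_contra hcon
            push Not at hcon
            exact hℓM (hMK ℓ hℓ hcon hℓQ)
          have hτ : ∃ τ : ℕ, ∀ i j, i < j → j < K → t i ≡ t j [MOD ℓ] → t i ≡ τ [MOD ℓ] := by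
            by_cases hex : ∃ i j, i < j ∧ j < K ∧ t i ≡ t j [MOD ℓ]
            · obtain ⟨i, j, hij, hj, hm⟩ := hex
              refine ⟨t i, fun i' j' hij' hj' hm' => ?_⟩
              exact (ht.one ℓ hℓ hℓM hℓQ i j hij hj i' j' hij' hj' hm hm').symm
            · exact ⟨0, fun i j hij hj hm => absurd ⟨i, j, hij, hj, hm⟩ hex⟩
          obtain ⟨τ, hτ⟩ := hτ
          have hℓQ' : ¬ ℓ ∣ Q := fun h => hℓQ ((Nat.prime_dvd_prime_iff_eq hℓ hQ).1 h)
          obtain ⟨x, hx1, hx2⟩ := class_exists hℓ hℓK hℓQ' t τ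
          exact ⟨x, fun _ => ⟨hx1, fun h => absurd (h.trans hdM) hℓM,
            fun _ _ i j hij hj hm => hx2 i (hτ i j hij hj hm)⟩⟩
    · exact ⟨0, fun h => absurd h hℓ⟩
  choose x₀ hx₀ using hcl
  have hD : ∀ ℓ ∈ S, ℓ ∣ ∏ p ∈ S, p := fun ℓ hℓ => Finset.dvd_prod_of_mem _ hℓ
  refine ⟨t, ∏ p ∈ S, p, ?_, hmono, htM, ?_, fun T hT => ?_⟩
  · refine Finset.squarefree_prod_of_pairwise_isCoprime (fun i hi j hj hij => ?_)
      (fun i hi => (hSp i hi).squarefree)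
    simp only [← Nat.coprime_iff_isRelPrime]
    exact (Nat.coprime_primes (hSp i hi) (hSp j hj)).2 hij
  · intro p hp
    exact ⟨x₀ p, (hx₀ p hp).1⟩
  -- the classes for the tuple `T² t`
  have hcl' : ∀ ℓ : ℕ, ∃ x : ℕ, ℓ.Prime → (∀ j, j < K → ¬ ℓ ∣ x + T ^ 2 * t j) ∧ (ℓ ∣ d → x ≡ b [MOD ℓ]) ∧
      (¬ ℓ ∣ M → ℓ ≠ Q → ∀ i j, i < j → j < K → t i ≡ t j [MOD ℓ] →
        jacobiSym ((x + T ^ 2 * t i : ℕ) : ℤ) ℓ = jacobiSym Q ℓ) := by
    intro ℓ
    by_cases hℓ : ℓ.Prime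
    · by_cases hℓM : ℓ ∣ M
      · refine ⟨x₀ ℓ, fun _ => ⟨fun j hj hdv => ?_, (hx₀ ℓ hℓ).2.1, fun h => absurd hℓM h⟩⟩
        have h0 : ℓ ∣ t j := Nat.modEq_zero_iff_dvd.1 ((htM j hj).of_dvd hℓM)
        have h1 : ℓ ∣ x₀ ℓ := (Nat.dvd_add_left (Dvd.dvd.mul_left h0 _)).1 hdv
        exact (hx₀ ℓ hℓ).1 j hj (dvd_add h1 h0)
      · by_cases hℓT : ℓ ∣ T
        · have hT2 : ∀ j, ℓ ∣ T ^ 2 * t j := fun j => Dvd.dvd.mul_right (dvd_pow hℓT (by norm_num)) _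
          by_cases hℓQ : ℓ = Q
          · refine ⟨1, fun _ => ⟨fun j hj hdv => ?_, fun h => absurd (h.trans hdM) hℓM, fun _ h => absurd hℓQ h⟩⟩
            have h1 : ℓ ∣ 1 := (Nat.dvd_add_left (hT2 j)).1 hdv
            exact hℓ.one_lt.ne' (Nat.eq_one_of_dvd_one h1)
          · refine ⟨Q, fun _ => ⟨fun j hj hdv => ?_, fun h => absurd (h.trans hdM) hℓM,
              fun _ _ i j hij hj hm => ?_⟩⟩
            · have h1 : ℓ ∣ Q := (Nat.dvd_add_left (hT2 j)).1 hdv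
              exact hℓQ ((Nat.prime_dvd_prime_iff_eq hℓ hQ).1 h1)
            · apply jacobiSym.mod_left'
              obtain ⟨z, hz⟩ := hT2 i
              rw [hz]
              push_cast
              rw [Int.add_mul_emod_self_left]
        · refine ⟨T ^ 2 * x₀ ℓ, fun _ => ⟨fun j hj hdv => ?_, fun h => absurd (h.trans hdM) hℓM,
              fun h1 h2 i j hij hj hm => ?_⟩⟩
          · rw [← mul_add] at hdv
            rcases (Nat.Prime.dvd_mul hℓ).1 hdv with h1 | h1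
            · exact hℓT (hℓ.dvd_of_dvd_pow h1)
            · exact (hx₀ ℓ hℓ).1 j hj h1
          · rw [← mul_add]
            push_cast
            rw [jacobiSym.mul_left, jacobiSym.sq_one', one_mul]
            · have := (hx₀ ℓ hℓ).2.2 h1 h2 i j hij hj hm
              exact_mod_cast this
            · rw [Int.gcd_natCast_natCast]
              exact ((Nat.Prime.coprime_iff_not_dvd hℓ).2 hℓT).symm
    · exact ⟨0, fun h => absurd h hℓ⟩
  choose x hx using hcl'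
  obtain ⟨h, hh⟩ := Nat.chineseRemainderOfFinset x (fun ℓ => ℓ) S (fun i hi => (hSp i hi).ne_zero) (by
    intro i hi j hj hij
    exact (Nat.coprime_primes (hSp i hi) (hSp j hj)).2 hij)
  refine ⟨h, ?_, ?_, ?_⟩
  · intro j hj
    refine Nat.Coprime.prod_right (fun ℓ hℓ => ?_)
    rw [Nat.coprime_comm, Nat.Prime.coprime_iff_not_dvd (hSp ℓ hℓ)]
    intro hdv
    apply (hx ℓ (hSp ℓ hℓ)).1 j hj
    have h1 := (hh ℓ hℓ).add_right (T ^ 2 * t j)
    exact Nat.modEq_zero_iff_dvd.1 (h1.symm.trans (Nat.modEq_zero_iff_dvd.2 hdv))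
  · intro n hn j hj
    have h1 : (d : ℤ) ∣ ((n + T ^ 2 * t j : ℕ) : ℤ) - (b : ℤ) := by
      apply dvd_of_squarefree hd
      intro ℓ hℓ hℓd
      have h2 : ℓ ∈ S := hSM ℓ hℓ (hℓd.trans hdM)
      have h3 : n ≡ h [MOD ℓ] := hn.of_dvd (hD ℓ h2)
      have h4 : n ≡ b [MOD ℓ] := (h3.trans (hh ℓ h2)).trans ((hx ℓ hℓ).2.1 hℓd)
      have h5 : n + T ^ 2 * t j ≡ b + T ^ 2 * 0 [MOD ℓ] :=
        h4.add (((htM j hj).of_dvd (hℓd.trans hdM)).mul_left (T ^ 2))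
      rw [mul_zero, add_zero] at h5
      exact (Nat.modEq_iff_dvd.1 h5.symm)
    exact (Nat.modEq_iff_dvd.2 h1).symm
  · intro n hn hnM hTn i j hij hj hp hrij
    obtain ⟨w, hw, hw'⟩ := hdiff i j hij hj
    have hpgt : M < n + T ^ 2 * t i := by omega
    have hpodd : Odd (n + T ^ 2 * t i) := hp.odd_of_ne_two (by omega)
    have hMp : M.Coprime (n + T ^ 2 * t i) := by
      rw [Nat.coprime_comm, Nat.Prime.coprime_iff_not_dvd hp]
      intro hdv
      have := Nat.le_of_dvd (by omega) hdv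
      omega
    have hQw : ¬ Q ∣ w := by
      intro hdv
      apply hrij
      have h1 : t j ≡ t i + 0 [MOD Q] := by
        rw [hw']
        exact (Nat.modEq_zero_iff_dvd.2 (Dvd.dvd.mul_left hdv _)).add_left _
      rw [add_zero] at h1
      exact ((ht.res i (by omega)).symm.trans h1.symm).trans (ht.res j hj)
    have hsym : ∀ ℓ : ℕ, ℓ.Prime → ℓ ∣ w → jacobiSym ((n + T ^ 2 * t i : ℕ) : ℤ) ℓ = jacobiSym Q ℓ := by
      intro ℓ hℓ hℓw
      have hℓM : ¬ ℓ ∣ M := by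
        intro h1
        have h2 : ℓ ∣ M ^ 2 := dvd_pow h1 (by norm_num)
        have h3 : w ≡ 1 [MOD ℓ] := hw.of_dvd h2
        have h4 := Nat.modEq_zero_iff_dvd.1 (h3.symm.trans (Nat.modEq_zero_iff_dvd.2 hℓw))
        exact hℓ.one_lt.ne' (Nat.eq_one_of_dvd_one h4)
      have hℓQ : ℓ ≠ Q := fun h1 => hQw (h1 ▸ hℓw)
      have hdv : ℓ ∣ t j - t i := by
        rw [hw', Nat.add_sub_cancel_left]
        exact Dvd.dvd.mul_left hℓw _
      have hℓS : ℓ ∈ S := hSt ℓ hℓ i j hij hj hdv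
      have hmod : t i ≡ t j [MOD ℓ] := (Nat.modEq_iff_dvd' (hmono i j hij hj).le).2 hdv
      have h1 := (hx ℓ hℓ).2.2 hℓM hℓQ i j hij hj hmod
      rw [← h1]
      apply jacobiSym.mod_left'
      have h2 : n ≡ x ℓ [MOD ℓ] := (hn.of_dvd (hD ℓ hℓS)).trans (hh ℓ hℓS)
      have h3 := h2.add_right (T ^ 2 * t i)
      exact_mod_cast h3
    have hcase : T = 0 ∨ T.Coprime (n + T ^ 2 * t i) := by
      rcases Nat.eq_zero_or_pos T with h0 | h0
      · exact Or.inl h0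
      · right
        rw [Nat.coprime_comm, Nat.Prime.coprime_iff_not_dvd hp]
        intro hdv
        have := Nat.le_of_dvd h0 hdv
        omega
    have hT0 : T ≠ 0 := hT
    have hTc : T.Coprime (n + T ^ 2 * t i) := hcase.resolve_left hT0
    have h1 : jacobiSym ((n + T ^ 2 * t j : ℕ) : ℤ) (n + T ^ 2 * t i) =
        jacobiSym ((M ^ (2 * (i + 1)) * w : ℕ) : ℤ) (n + T ^ 2 * t i) := by
      have h0 : jacobiSym ((T ^ 2 * (M ^ (2 * (i + 1)) * w) : ℕ) : ℤ) (n + T ^ 2 * t i) =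
          jacobiSym ((M ^ (2 * (i + 1)) * w : ℕ) : ℤ) (n + T ^ 2 * t i) := by
        have := jacobi_even_pow T 1 (n + T ^ 2 * t i) (M ^ (2 * (i + 1)) * w) hTc
        simpa using this
      rw [← h0]
      apply jacobiSym.mod_left'
      rw [hw', mul_add, ← Nat.add_assoc]
      push_cast
      rw [Int.add_emod_left]
    rw [h1, symbol hQodd hM2 hw hpodd hMp hQM.symm hsym, ← jacobiSym.legendreSym.to_jacobiSym]
    unfold legendreSym
    congr 1
    have h2 : ((t j : ℕ) : ZMod Q) = ((t i + M ^ (2 * (i + 1)) * w : ℕ) : ZMod Q) := by rw [hw']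
    have h3 : ((t j : ℕ) : ZMod Q) = r j := (ZMod.natCast_eq_natCast_iff _ _ _).2 (ht.res j hj)
    have h4 : ((t i : ℕ) : ZMod Q) = r i := (ZMod.natCast_eq_natCast_iff _ _ _).2 (ht.res i (by omega))
    rw [Int.cast_natCast]
    rw [h3, Nat.cast_add, h4] at h2
    rw [h2]
    ring

end Pool.Agent.U974.LG
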