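import Pool.Agent.TH101.RG.TupMult
import Pool.Agent.U974.LG.Arith
import Pool.Agent.U974.LG.Embed

set_option autoImplicit false

/-! # All matrices of Legendre symbols between the primes of one cluster isolated by record gaps -/

namespace Pool.Agent.U974.LG

open Finset Filter
open Pool.Agent.H256R2.SC (ff)
open Pool.Agent.H362R2.RQ (fib)

open scoped Classical

theorem main (m L d b : ℕ) (hL : 0 < L) (hd : Squarefree d) (hb : b.Coprime d) : ∃ (C : ℕ) (c : ℝ), 0 < c ∧
    ∀ᶠ X : ℝ in atTop, ∀ T : ℕ, 1 ≤ T → (C : ℝ) * (T : ℝ) ^ 2 ≤ c * ff X →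
    ∀ bad : Finset ℕ, (bad.card : ℝ) ≤ X ^ (7 / 8 : ℝ) →
    ∃ n : ℕ, X < n ∧ (n : ℝ) ≤ 3 * X ∧ n ∉ bad ∧
      (∀ q : ℕ, q.Prime → |(q : ℝ) - n| ≤ c * ff X → ∃ u ≤ C, q = n + T ^ 2 * u) ∧
      ∀ ε : Fin m → Fin m → ℤ, (∀ i j, ε i j = 1 ∨ ε i j = -1) →
      ∃ p : Fin m → ℕ, StrictMono p ∧ (∀ i, (p i).Prime ∧ (∃ u ≤ C, p i = n + T ^ 2 * u) ∧ p i ≡ b [MOD d]) ∧
        (∀ i j, p i ≡ p j [MOD L]) ∧ ∀ i j, i < j → jacobiSym (p j) (p i) = ε i j := by
  obtain ⟨η, hη, H⟩ := Pool.Agent.TH101.RG.tuple_multiples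
  obtain ⟨Q₀, hQ₀⟩ := embed_order m η hη
  obtain ⟨Q, hQge, hQ⟩ := Nat.exists_infinite_primes (Q₀ + d + L + 4)
  haveI : Fact Q.Prime := ⟨hQ⟩
  have hd0 : 0 < d := Nat.pos_of_ne_zero hd.ne_zero
  set N := Q - 1 with hN
  obtain ⟨K, hNK, HK⟩ := H N (by omega)
  have hK : 1 ≤ K := by omega
  let M : ℕ := 2 * d * L * ∏ p ∈ (Finset.range (2 * K + 3)).filter (fun p => p.Prime ∧ p ≠ Q), p
  have hprod0 : 0 < ∏ p ∈ (Finset.range (2 * K + 3)).filter (fun p => p.Prime ∧ p ≠ Q), p :=
    Finset.prod_pos (fun p hp => (Finset.mem_filter.1 hp).2.1.pos)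
  have hM2 : 2 ∣ M := Dvd.dvd.mul_right (Dvd.dvd.mul_right (Dvd.intro _ rfl) _) _
  have hdM : d ∣ M := Dvd.dvd.mul_right (Dvd.dvd.mul_right (Dvd.intro_left _ rfl) _) _
  have hLM : L ∣ M := Dvd.dvd.mul_right (Dvd.intro_left _ rfl) _
  have hM1 : 1 < M := by
    have h0 : 0 < M := by positivity
    have := Nat.le_of_dvd h0 hM2
    omega
  have hQM : Q.Coprime M := by
    refine Nat.Coprime.mul_right (Nat.Coprime.mul_right (Nat.Coprime.mul_right ?_ ?_) ?_)
      (Nat.Coprime.prod_right (fun p hp => ?_))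
    · exact (Nat.coprime_primes hQ Nat.prime_two).2 (by omega)
    · rw [Nat.Prime.coprime_iff_not_dvd hQ]
      intro hdv
      have := Nat.le_of_dvd hd0 hdv
      omega
    · rw [Nat.Prime.coprime_iff_not_dvd hQ]
      intro hdv
      have := Nat.le_of_dvd hL hdv
      omega
    · have := (Finset.mem_filter.1 hp).2
      exact (Nat.coprime_primes hQ this.1).2 this.2.symm
  have hMK : ∀ p : ℕ, p.Prime → p ≤ 2 * K + 2 → p ≠ Q → p ∣ M := by
    intro p hp hpK hpQ
    exact Dvd.dvd.mul_left (Finset.dvd_prod_of_mem _ (Finset.mem_filter.2 ⟨Finset.mem_range.2 (by omega), hp, hpQ⟩)) _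
  -- colours
  set q₀ := K / N with hq₀
  have hN1 : 1 ≤ N := by omega
  have hq1 : 1 ≤ q₀ := (Nat.one_le_div_iff (by omega)).2 hNK
  have hKlt : K < N * (q₀ + 1) := Nat.lt_mul_div_succ K (by omega)
  have hKge : q₀ * N ≤ K := Nat.div_mul_le_self _ _
  let rr : ℕ → ℕ := fun j => min (j / q₀) (N - 1)
  have hrr : ∀ j, rr j < N := fun j => lt_of_le_of_lt (min_le_right _ _) (by omega)
  let col : Fin K → Fin N := fun j => ⟨rr j, hrr j⟩
  have hrmono : Monotone rr := by
    intro i j hij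
    exact min_le_min (Nat.div_le_div_right hij) le_rfl
  have hcol : ∀ e : Fin N, K ≤ 2 * N * fib col e := by
    intro e
    have h1 : q₀ ≤ fib col e := by
      have h2 : ∀ u ∈ Finset.range q₀, e * q₀ + u < K := by
        intro u hu
        have h3 := Finset.mem_range.1 hu
        have h4 : (e : ℕ) + 1 ≤ N := e.2
        have h5 : ((e : ℕ) + 1) * q₀ ≤ N * q₀ := Nat.mul_le_mul_right _ h4
        nlinarith
      have h3 : (Finset.range q₀).card ≤ fib col e := by
        unfold fib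
        apply Finset.card_le_card_of_injOn (fun u => if h : e * q₀ + u < K then (⟨e * q₀ + u, h⟩ : Fin K) else
          ⟨0, by omega⟩)
        · intro u hu
          have h3 := h2 u hu
          have h4 := Finset.mem_range.1 hu
          simp only [h3, dif_pos]
          refine Finset.mem_coe.2 (Finset.mem_filter.2 ⟨Finset.mem_univ _, ?_⟩)
          apply Fin.ext
          simp only [col, rr]
          have h5 : ((e : ℕ) * q₀ + u) / q₀ = e := by
            rw [mul_comm, Nat.mul_add_div (by omega), Nat.div_eq_of_lt h4, add_zero]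
          rw [h5]
          have := e.2
          omega
        · intro u hu v hv huv
          have h3 := h2 u hu
          have h4 := h2 v hv
          simp only [h3, h4, dif_pos, Fin.mk.injEq] at huv
          omega
      rwa [Finset.card_range] at h3
    have h2 : 2 * N * q₀ ≤ 2 * N * fib col e := Nat.mul_le_mul_left _ h1
    have h3 : N * (q₀ + 1) ≤ 2 * N * q₀ := by nlinarith
    omega
  let r : ℕ → ℕ := fun j => rr j + 1
  have hr : ∀ j, ¬ Q ∣ r j := by
    intro j hdv
    have h1 := Nat.le_of_dvd (by simp [r]) hdv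
    have h2 := hrr j
    simp only [r] at h1
    omega
  obtain ⟨t, D, hD, htmono, htM, hadm, hT⟩ := arith (Q := Q) (M := M) (K := K) (d := d) (b := b)
    (by omega) hM2 hM1 hQM hMK hK hd hdM hb r hr
  obtain ⟨c, hc, hX⟩ := HK 1 0 1 D hD
  refine ⟨t (K - 1) + 1, c, hc, ?_⟩
  have htle : ∀ j, j < K → t j ≤ t (K - 1) := by
    intro j hj
    rcases Nat.lt_or_ge j (K - 1) with h1 | h1
    · exact (htmono j (K - 1) h1 (by omega)).le
    · have h2 : j = K - 1 := by omega
      rw [h2]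
  filter_upwards [hX, Pool.Agent.H312R2.RG.ev_ff c hc, eventually_ge_atTop (M : ℝ), eventually_gt_atTop 0] with
    X hX hff hXM hX0
  intro T hT1 hTX bad hbad
  obtain ⟨hff1, hff2, hff3⟩ := hff
  obtain ⟨h, hcop, hmod, hsym⟩ := hT T (by omega)
  have hT2 : (0 : ℝ) ≤ (T : ℝ) ^ 2 := by positivity
  have htC : ∀ j, j < K → ((t j : ℕ) : ℝ) ≤ ((t (K - 1) + 1 : ℕ) : ℝ) := by
    intro j hj
    exact_mod_cast (htle j hj).trans (Nat.le_succ _)
  obtain ⟨n, hXn, hn3, hnb, hnd, ⟨E, hE1, hE2⟩, hmain⟩ := hX 1 0 one_ne_zero (by simp) (by simp) (by simp)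
    (fun j : Fin K => T ^ 2 * t j) (by
      intro i j hij
      simp only at hij
      have hij' : t i = t j := Nat.eq_of_mul_eq_mul_left (by positivity) hij
      rcases lt_trichotomy (i : ℕ) j with h1 | h1 | h1
      · exact absurd hij' (htmono i j h1 j.2).ne
      · exact Fin.ext h1
      · exact absurd hij'.symm (htmono j i h1 i.2).ne) (by
      intro j
      push_cast
      have h1 := mul_le_mul_of_nonneg_left (htC j j.2) hT2
      push_cast at h1 hTX
      linarith) (by
      intro p hp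
      by_cases hpT : p ∣ T
      · refine ⟨1, fun j hdv => ?_⟩
        have h0 : p ∣ T ^ 2 * t j := Dvd.dvd.mul_right (dvd_pow hpT (by norm_num)) _
        exact hp.one_lt.ne' (Nat.eq_one_of_dvd_one ((Nat.dvd_add_left h0).1 hdv))
      · obtain ⟨v, hv⟩ := hadm p hp
        refine ⟨T ^ 2 * v, fun j hdv => ?_⟩
        rw [← mul_add] at hdv
        rcases (Nat.Prime.dvd_mul hp).1 hdv with h1 | h1
        · exact hpT (hp.dvd_of_dvd_pow h1)
        · exact hv j j.2 h1) h (fun j => hcop j j.2) col hcol bad hbad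
  have hMn : M < n := by
    have h2 : (M : ℝ) < n := lt_of_le_of_lt hXM hXn
    exact_mod_cast h2
  have hTn : T < n := by
    have h1 : (T : ℝ) ≤ (T : ℝ) ^ 2 := by
      have : (1 : ℝ) ≤ T := by exact_mod_cast hT1
      nlinarith
    have h3 : (1 : ℝ) ≤ ((t (K - 1) + 1 : ℕ) : ℝ) := by
      push_cast
      have : (0 : ℝ) ≤ (t (K - 1) : ℝ) := Nat.cast_nonneg _
      linarith
    have h4 : (T : ℝ) ^ 2 ≤ ((t (K - 1) + 1 : ℕ) : ℝ) * (T : ℝ) ^ 2 := by nlinarith
    have h5 : (T : ℝ) < n := by linarith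
    exact_mod_cast h5
  refine ⟨n, hXn, hn3, hnb, ?_, ?_⟩
  · intro q hq hqn
    obtain ⟨l, hl⟩ := hmain 1 1 (by norm_num) (by norm_num) (by norm_num) (by norm_num) q hq (by
      push_cast
      simpa using hqn)
    exact ⟨t l, (htle l l.2).trans (Nat.le_succ _), hl⟩
  · intro ε hε
    obtain ⟨e, he, heE, heε⟩ := hQ₀ Q (by omega) E hE1 ε hε
    have h1 : ∀ i, ∃ j : Fin K, col j = e i ∧ (n + T ^ 2 * t j).Prime := fun i => hE2 (e i) (heE i)
    choose j hj hjp using h1
    have hjr : ∀ i, rr (j i) = (e i : ℕ) := by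
      intro i
      have := congrArg (fun z : Fin N => (z : ℕ)) (hj i)
      exact this
    have hjlt : ∀ i i', i < i' → (j i : ℕ) < j i' := by
      intro i i' hii
      by_contra hcon
      push Not at hcon
      have h2 := hrmono hcon
      rw [hjr, hjr] at h2
      have h3 := he hii
      exact absurd h2 (not_le.2 (Fin.lt_def.1 h3))
    refine ⟨fun i => n + T ^ 2 * t (j i), ?_, ?_, ?_, ?_⟩
    · intro i i' hii
      exact Nat.add_lt_add_left (Nat.mul_lt_mul_of_pos_left (htmono _ _ (hjlt i i' hii) (j i').2) (by positivity)) n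
    · intro i
      exact ⟨hjp i, ⟨t (j i), (htle _ (j i).2).trans (Nat.le_succ _), rfl⟩, hmod n hnd _ (j i).2⟩
    · intro i i'
      have h1 : t (j i) ≡ t (j i') [MOD L] :=
        ((htM _ (j i).2).trans (htM _ (j i').2).symm).of_dvd hLM
      exact (h1.mul_left (T ^ 2)).add_left n
    · intro i i' hii
      have h2 : ¬ r (j i) ≡ r (j i') [MOD Q] := by
        intro h3
        have h4 := hrr (j i)
        have h5 := hrr (j i')
        simp only [r] at h3
        unfold Nat.ModEq at h3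
        rw [Nat.mod_eq_of_lt (by omega), Nat.mod_eq_of_lt (by omega), hjr, hjr] at h3
        have h6 := Fin.lt_def.1 (he hii)
        omega
      have h3 := hsym n hnd hMn hTn (j i) (j i') (hjlt i i' hii) (j i').2 (hjp i) h2
      rw [h3, ← heε i i' hii]
      congr 1
      simp only [r]
      rw [hjr, hjr]

end Pool.Agent.U974.LG
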