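import Mathlib

set_option autoImplicit false

/-! # Paley graphs are quasirandom: every pattern of Legendre symbols of differences occurs, in order, in all families
of large sets of residues. -/

namespace Pool.Agent.U974.LG

open Finset

variable {Q : ℕ} [Fact Q.Prime]

/-- the quadratic character modulo `Q` -/
noncomputable abbrev chi (Q : ℕ) [Fact Q.Prime] : MulChar (ZMod Q) ℤ := quadraticChar (ZMod Q)

theorem chi_sq {a : ZMod Q} (ha : a ≠ 0) : chi Q a ^ 2 = 1 := quadraticChar_sq_one ha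

theorem chi_le (a : ZMod Q) : chi Q a = 0 ∨ chi Q a = 1 ∨ chi Q a = -1 := by
  by_cases ha : a = 0
  · left; simp [ha]
  · right; exact quadraticChar_dichotomy ha

theorem sum_chi (hQ : Q ≠ 2) : ∑ u : ZMod Q, chi Q u = 0 := by
  apply quadraticChar_sum_zero
  rw [ZMod.ringChar_zmod_n]
  exact hQ

theorem sum_affine (hQ : Q ≠ 2) (e : ZMod Q) (he : e ≠ 0) : ∑ u : ZMod Q, chi Q (1 + e * u) = 0 := by
  rw [← sum_chi hQ]
  refine Fintype.sum_bijective (fun u => 1 + e * u) ?_ _ _ (fun _ => rfl)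
  constructor
  · intro a b hab
    simp only [add_right_inj] at hab
    exact mul_left_cancel₀ he hab
  · intro y
    refine ⟨e⁻¹ * (y - 1), ?_⟩
    simp only
    rw [← mul_assoc, mul_inv_cancel₀ he, one_mul]
    ring

theorem corr (hQ : Q ≠ 2) (e : ZMod Q) (he : e ≠ 0) : ∑ u : ZMod Q, chi Q u * chi Q (u + e) = -1 := by
  set g : ZMod Q → ℤ := fun u => if u = 0 then 0 else chi Q (1 + e * u) with hg
  have h1 : ∀ u : ZMod Q, chi Q u * chi Q (u + e) = g u⁻¹ := by
    intro u
    by_cases hu : u = 0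
    · simp [hg, hu]
    · have h2 : u⁻¹ ≠ 0 := inv_ne_zero hu
      simp only [hg, h2, if_false]
      rw [← map_mul]
      have h3 : u * (u + e) = u ^ 2 * (1 + e * u⁻¹) := by
        field_simp
      rw [h3, map_mul, map_pow, chi_sq hu, one_mul]
  have h4 : ∑ u : ZMod Q, g u⁻¹ = ∑ u : ZMod Q, g u :=
    Fintype.sum_equiv (Equiv.inv (ZMod Q)) _ _ (fun _ => rfl)
  have h5 : ∀ u : ZMod Q, g u = chi Q (1 + e * u) - if u = 0 then 1 else 0 := by
    intro u
    by_cases hu : u = 0
    · simp [hg, hu]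
    · simp [hg, hu]
  simp_rw [h1]
  rw [h4]
  simp_rw [h5]
  rw [Finset.sum_sub_distrib, sum_affine hQ e he]
  simp

theorem corr' (hQ : Q ≠ 2) (x y : ZMod Q) (h : x ≠ y) : ∑ c : ZMod Q, chi Q (x - c) * chi Q (y - c) = -1 := by
  rw [← corr hQ (y - x) (sub_ne_zero.2 h.symm)]
  refine Fintype.sum_equiv (Equiv.subLeft x) _ _ (fun c => ?_)
  simp only [Equiv.subLeft_apply]
  congr 2
  ring

theorem second_moment (hQ : Q ≠ 2) (S : Finset (ZMod Q)) :
    ∑ c : ZMod Q, (∑ x ∈ S, chi Q (x - c)) ^ 2 ≤ Q * S.card := by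
  have h1 : ∀ c : ZMod Q, (∑ x ∈ S, chi Q (x - c)) ^ 2 = ∑ x ∈ S, ∑ y ∈ S, chi Q (x - c) * chi Q (y - c) := by
    intro c
    rw [sq, Finset.sum_mul_sum]
  simp_rw [h1]
  rw [Finset.sum_comm]
  have h2 : ∀ x ∈ S, ∑ c : ZMod Q, ∑ y ∈ S, chi Q (x - c) * chi Q (y - c) ≤ (Q : ℤ) := by
    intro x hx
    rw [Finset.sum_comm]
    have h3 : ∀ y ∈ S, ∑ c : ZMod Q, chi Q (x - c) * chi Q (y - c) ≤ if y = x then (Q : ℤ) else 0 := by
      intro y _
      by_cases hxy : y = x
      · simp only [hxy, if_true]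
        calc ∑ c : ZMod Q, chi Q (x - c) * chi Q (x - c) ≤ ∑ c : ZMod Q, (1 : ℤ) := by
              apply Finset.sum_le_sum
              intro c _
              rcases chi_le (Q := Q) (x - c) with h | h | h <;> simp [h]
          _ = Q := by simp [ZMod.card]
      · simp only [hxy, if_false]
        rw [corr' hQ x y (Ne.symm hxy)]
        norm_num
    refine (Finset.sum_le_sum h3).trans ?_
    rw [Finset.sum_ite_eq' S x]
    simp [hx]
  refine (Finset.sum_le_sum h2).trans ?_
  rw [Finset.sum_const, nsmul_eq_mul]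
  exact le_of_eq (by ring)

/-- few residues `c` are bad for a large set `T` -/
theorem few_bad (hQ : Q ≠ 2) (T : Finset (ZMod Q)) (hT : 4 ≤ T.card) (s : ℤ) (hs : s = 1 ∨ s = -1)
    (B : Finset (ZMod Q)) (hB : ∀ c ∈ B, 4 * (T.filter (fun x => chi Q (x - c) = s)).card < T.card) :
    B.card * T.card ≤ 16 * Q := by
  have h1 : ∀ c ∈ B, (T.card : ℤ) ^ 2 ≤ 16 * (∑ x ∈ T, chi Q (x - c)) ^ 2 := by
    intro c hc
    have h2 := hB c hc
    set A := (T.filter (fun x => chi Q (x - c) = s)) with hA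
    -- s * sum
    have h3 : s * ∑ x ∈ T, chi Q (x - c) ≤ 2 * A.card - T.card + 1 := by
      rw [Finset.mul_sum]
      have h4 : ∀ x ∈ T, s * chi Q (x - c) ≤ (2 * (if chi Q (x - c) = s then 1 else 0) - 1) +
          (if x = c then 1 else 0) := by
        intro x _
        by_cases hx : x = c
        · subst hx
          simp
          split_ifs <;> norm_num
        · have h5 := quadraticChar_dichotomy (F := ZMod Q) (sub_ne_zero.2 hx)
          simp only [hx, if_false, add_zero]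
          rcases hs with hs | hs <;> rcases h5 with h5 | h5 <;> simp [chi, hs, h5]
      refine (Finset.sum_le_sum h4).trans ?_
      rw [Finset.sum_add_distrib, Finset.sum_sub_distrib, ← Finset.mul_sum, Finset.sum_ite_eq' T c]
      rw [← Finset.sum_filter, ← hA]
      simp only [Finset.sum_const, nsmul_eq_mul, mul_one]
      split_ifs <;> linarith
    have h6 : (4 : ℤ) * A.card < T.card := by exact_mod_cast h2
    have h7 : (4 : ℤ) ≤ T.card := by exact_mod_cast hT
    have h8 : (∑ x ∈ T, chi Q (x - c)) ^ 2 = (s * ∑ x ∈ T, chi Q (x - c)) ^ 2 := by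
      rcases hs with hs | hs <;> rw [hs] <;> ring
    rw [h8]
    set v := s * ∑ x ∈ T, chi Q (x - c) with hv
    have h9 : 4 * v ≤ -(T.card : ℤ) := by linarith
    nlinarith
  have h2 : (B.card : ℤ) * (T.card : ℤ) ^ 2 ≤ 16 * (Q * T.card) := by
    calc (B.card : ℤ) * (T.card : ℤ) ^ 2 = ∑ c ∈ B, (T.card : ℤ) ^ 2 := by simp
      _ ≤ ∑ c ∈ B, 16 * (∑ x ∈ T, chi Q (x - c)) ^ 2 := Finset.sum_le_sum h1
      _ ≤ ∑ c : ZMod Q, 16 * (∑ x ∈ T, chi Q (x - c)) ^ 2 :=
          Finset.sum_le_sum_of_subset_of_nonneg (Finset.subset_univ _) (fun _ _ _ => by positivity)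
      _ = 16 * ∑ c : ZMod Q, (∑ x ∈ T, chi Q (x - c)) ^ 2 := by rw [Finset.mul_sum]
      _ ≤ 16 * (Q * T.card) := by
          have := second_moment hQ T
          linarith
  have h3 : (0 : ℤ) < T.card := by
    have : (4 : ℤ) ≤ T.card := by exact_mod_cast hT
    linarith
  have h4 : ((B.card * T.card : ℕ) : ℤ) * T.card ≤ ((16 * Q : ℕ) : ℤ) * T.card := by
    push_cast
    nlinarith
  exact_mod_cast le_of_mul_le_mul_right h4 h3

end Pool.Agent.U974.LG
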