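import Pool.Agent.U974.LG.Paley

set_option autoImplicit false

/-! # Evaluation of the symbols and choice of the residue classes -/

namespace Pool.Agent.U974.LG

open Finset

/-- the Jacobi symbols of `a` and `b` modulo `w` agree if the ones modulo all prime factors of `w` agree -/
theorem jacobi_congr (a b : ℤ) (w : ℕ) (h : ∀ ℓ : ℕ, ℓ.Prime → ℓ ∣ w → jacobiSym a ℓ = jacobiSym b ℓ) :
    jacobiSym a w = jacobiSym b w := by
  induction w using Nat.recOnMul with
  | zero => simp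
  | one => simp
  | prime p hp => exact h p hp dvd_rfl
  | mul x y hx hy =>
      by_cases hx0 : x = 0
      · simp [hx0]
      by_cases hy0 : y = 0
      · simp [hy0]
      rw [jacobiSym.mul_right' a hx0 hy0, jacobiSym.mul_right' b hx0 hy0,
        hx (fun ℓ hℓ hd => h ℓ hℓ (Dvd.dvd.mul_right hd y)), hy (fun ℓ hℓ hd => h ℓ hℓ (Dvd.dvd.mul_left hd x))]

theorem jacobi_even_pow (M e p w : ℕ) (h : M.Coprime p) :
    jacobiSym (((M ^ (2 * e) * w : ℕ) : ℤ)) p = jacobiSym w p := by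
  push_cast
  rw [jacobiSym.mul_left, pow_mul, jacobiSym.pow_left, jacobiSym.sq_one', one_pow, one_mul]
  rw [Int.gcd_natCast_natCast]
  exact h

/-- the symbol of a difference `D = M^(2e) w`, `w = 1 mod M²`, modulo `p` -/
theorem symbol {Q M e w p : ℕ} (hQ : Odd Q) (hM : 2 ∣ M) (hw : w ≡ 1 [MOD M ^ 2]) (hp : Odd p)
    (hMp : M.Coprime p) (hMQ : M.Coprime Q)
    (h : ∀ ℓ : ℕ, ℓ.Prime → ℓ ∣ w → jacobiSym p ℓ = jacobiSym Q ℓ) :
    jacobiSym ((M ^ (2 * e) * w : ℕ) : ℤ) p = jacobiSym ((M ^ (2 * e) * w : ℕ) : ℤ) Q := by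
  have h4 : w % 4 = 1 := by
    have h1 : 4 ∣ M ^ 2 := by
      obtain ⟨k, rfl⟩ := hM
      exact ⟨k ^ 2, by ring⟩
    exact hw.of_dvd h1
  rw [jacobi_even_pow M e p w hMp, jacobi_even_pow M e Q w hMQ,
    jacobiSym.quadratic_reciprocity_one_mod_four h4 hp, jacobiSym.quadratic_reciprocity_one_mod_four h4 hQ]
  exact jacobi_congr _ _ _ h

theorem class_exists {ℓ Q K : ℕ} (hℓ : ℓ.Prime) (hℓK : 2 * K + 2 < ℓ) (hQ : ¬ ℓ ∣ Q) (t : ℕ → ℕ) (τ : ℕ) :
    ∃ x : ℕ, (∀ j, j < K → ¬ ℓ ∣ x + t j) ∧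
      ∀ i, t i ≡ τ [MOD ℓ] → jacobiSym ((x + t i : ℕ) : ℤ) ℓ = jacobiSym Q ℓ := by
  classical
  haveI : Fact ℓ.Prime := ⟨hℓ⟩
  have hQ0 : (Q : ZMod ℓ) ≠ 0 := by
    rw [Ne, ZMod.natCast_eq_zero_iff]
    exact hQ
  let A : Finset (ZMod ℓ) := (Finset.Icc 1 (K + 1)).image (fun s : ℕ => (Q : ZMod ℓ) * (s : ZMod ℓ) ^ 2 - τ)
  let B : Finset (ZMod ℓ) := (Finset.range K).image (fun j : ℕ => -(t j : ZMod ℓ))
  have hA : A.card = K + 1 := by
    have h1 : A.card = (Finset.Icc 1 (K + 1)).card := by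
      apply Finset.card_image_of_injOn
      intro s hs s' hs' hss
      have hs1 := Finset.mem_Icc.1 (Finset.mem_coe.1 hs)
      have hs2 := Finset.mem_Icc.1 (Finset.mem_coe.1 hs')
      simp only [sub_left_inj] at hss
      have h2 := mul_left_cancel₀ hQ0 hss
      rcases sq_eq_sq_iff_eq_or_eq_neg.1 h2 with h3 | h3
      · have h4 := (ZMod.natCast_eq_natCast_iff' _ _ _).1 h3
        rwa [Nat.mod_eq_of_lt (by omega), Nat.mod_eq_of_lt (by omega)] at h4
      · exfalso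
        have h4 : ((s + s' : ℕ) : ZMod ℓ) = 0 := by
          push_cast
          rw [h3]
          ring
        rw [ZMod.natCast_eq_zero_iff] at h4
        have := Nat.le_of_dvd (by omega) h4
        omega
    rw [h1]
    simp
  have hB : B.card ≤ K := by
    have := Finset.card_image_le (s := Finset.range K) (f := fun j : ℕ => -(t j : ZMod ℓ))
    rwa [Finset.card_range] at this
  obtain ⟨z, hz, hz'⟩ := Finset.exists_mem_notMem_of_card_lt_card (s := B) (t := A) (by omega)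
  obtain ⟨s, hs, hsz⟩ := Finset.mem_image.1 hz
  have hs1 := Finset.mem_Icc.1 hs
  have hs0 : (s : ZMod ℓ) ≠ 0 := by
    rw [Ne, ZMod.natCast_eq_zero_iff]
    intro hd
    have := Nat.le_of_dvd (by omega) hd
    omega
  refine ⟨z.val, ?_, ?_⟩
  · intro j hj hd
    apply hz'
    refine Finset.mem_image.2 ⟨j, Finset.mem_range.2 hj, ?_⟩
    rw [← ZMod.natCast_eq_zero_iff] at hd
    push_cast at hd
    rw [ZMod.natCast_zmod_val] at hd
    exact (eq_neg_of_add_eq_zero_left hd).symm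
  · intro i hi
    have h1 : ((z.val + t i : ℕ) : ZMod ℓ) = Q * (s : ZMod ℓ) ^ 2 := by
      push_cast
      rw [ZMod.natCast_zmod_val, (ZMod.natCast_eq_natCast_iff _ _ _).2 hi, ← hsz]
      ring
    rw [← jacobiSym.legendreSym.to_jacobiSym, ← jacobiSym.legendreSym.to_jacobiSym]
    unfold legendreSym
    have h2 : (((z.val + t i : ℕ) : ℤ) : ZMod ℓ) = Q * (s : ZMod ℓ) ^ 2 := by
      rw [Int.cast_natCast]
      exact h1
    rw [h2, map_mul, map_pow, quadraticChar_sq_one hs0, mul_one, Int.cast_natCast]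

end Pool.Agent.U974.LG
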